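import Mathlib

set_option autoImplicit false

namespace Pool.Agent.Results.MP_4362c3_ag.Fermat

open MvPolynomial

/-- the rational function field `k(x_1, …, x_m)` -/
abbrev RF (k : Type*) [Field k] (m : ℕ) := FractionRing (MvPolynomial (Fin m) k)

/-- the derivation in `x_i` on `k(x_1, …, x_m)`: quotient rule on a representation `a / b` -/
noncomputable def pd {k : Type*} [Field k] {m : ℕ} (i : Fin m) (g : RF k m) : RF k m :=
  let a := (IsLocalization.sec (nonZeroDivisors (MvPolynomial (Fin m) k)) g).1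
  let b := ((IsLocalization.sec (nonZeroDivisors (MvPolynomial (Fin m) k)) g).2 :
    MvPolynomial (Fin m) k)
  algebraMap _ (RF k m) (b * pderiv i a - a * pderiv i b) / algebraMap _ (RF k m) (b ^ 2)

/-- rational integrability with respect to all variables -/
def Integrable {k : Type*} [Field k] {m : ℕ} (f : RF k m) : Prop :=
  ∃ u : Fin m → RF k m, f = ∑ i, pd i (u i)

/-- `1 / (x_1 ^ n + ⋯ + x_m ^ n)` -/
noncomputable def fermat (k : Type*) [Field k] (m n : ℕ) : RF k m :=
  1 / algebraMap (MvPolynomial (Fin m) k) (RF k m) (∑ i, X i ^ n)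

theorem pd_div {k : Type*} [Field k] {m : ℕ} (i : Fin m) (a b : MvPolynomial (Fin m) k) (hb : b ≠ 0) :
    pd i (algebraMap _ (RF k m) a / algebraMap _ (RF k m) b) =
      algebraMap _ (RF k m) (b * pderiv i a - a * pderiv i b) / algebraMap _ (RF k m) (b ^ 2) := by
  have inj := IsFractionRing.injective (MvPolynomial (Fin m) k) (RF k m)
  have h := IsLocalization.sec_spec (nonZeroDivisors (MvPolynomial (Fin m) k))
    (algebraMap _ (RF k m) a / algebraMap _ (RF k m) b)
  unfold pd
  set c := (IsLocalization.sec (nonZeroDivisors (MvPolynomial (Fin m) k))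
    (algebraMap _ (RF k m) a / algebraMap _ (RF k m) b)).1
  have hd := nonZeroDivisors.coe_ne_zero (IsLocalization.sec (nonZeroDivisors (MvPolynomial (Fin m) k))
    (algebraMap _ (RF k m) a / algebraMap _ (RF k m) b)).2
  set d := ((IsLocalization.sec (nonZeroDivisors (MvPolynomial (Fin m) k))
    (algebraMap _ (RF k m) a / algebraMap _ (RF k m) b)).2 : MvPolynomial (Fin m) k)
  have hb' : algebraMap _ (RF k m) b ≠ 0 := (map_ne_zero_iff _ inj).2 hb
  have h1 : a * d = c * b := inj (by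
    rw [map_mul, map_mul, ← h]; field_simp)
  have h2 := congrArg (pderiv i) h1
  simp only [Derivation.leibniz, smul_eq_mul] at h2
  simp only
  rw [div_eq_div_iff ((map_ne_zero_iff _ inj).2 (pow_ne_zero 2 hd))
    ((map_ne_zero_iff _ inj).2 (pow_ne_zero 2 hb)), ← map_mul, ← map_mul]
  congr 1
  linear_combination (-(d * b)) * h2 + (b * pderiv i d + d * pderiv i b) * h1

theorem nonunit' {k : Type*} [Field k] (S : Finset k) (B : Subring k) (hB : ∀ x ∈ S, x ∈ B)
    {L : Type*} [Field L] [Algebra ℚ L] [Module.Finite ℚ L] (π : B →+* L) :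
    ∃ N : ℕ, ∀ p : ℕ, p.Prime → N < p → ¬ IsUnit (p : Subring.closure (S : Set k)) := by
  have : CharZero L := algebraRat.charZero L
  have cg : ∀ {x y : L}, IsIntegral ℤ x → y = x → IsIntegral ℤ y := fun h e => e ▸ h
  have h1 : ∀ x : L, ∃ n : ℤ, n ≠ 0 ∧ IsIntegral ℤ (n • x) := fun x =>
    ((IsFractionRing.isAlgebraic_iff ℤ ℚ _).2 (Algebra.IsAlgebraic.isAlgebraic x)).exists_integral_multiple
  choose n hn hi using h1
  let N : ℤ := ∏ s ∈ S.attach, n (π ⟨s.1, hB _ s.2⟩)
  have hN : N ≠ 0 := Finset.prod_ne_zero_iff.2 fun s _ => hn _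
  have hNi : IsIntegral ℤ (N : L) := isIntegral_algebraMap (x := N)
  have h2 : ∀ x ∈ Subring.closure (S : Set k), ∃ (hx : x ∈ B) (e : ℕ),
      IsIntegral ℤ ((N : L) ^ e * π ⟨x, hx⟩) := by
    intro x hx
    induction hx using Subring.closure_induction with
    | mem x hx =>
      refine ⟨hB _ hx, 1, ?_⟩
      obtain ⟨c, hc⟩ : n (π ⟨x, hB _ hx⟩) ∣ N :=
        Finset.dvd_prod_of_mem _ (Finset.mem_attach S ⟨x, hx⟩)
      have := (isIntegral_algebraMap (x := c) (A := L)).mul (hi (π ⟨x, hB _ hx⟩))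
      refine cg this ?_
      rw [hc]; simp; ring
    | zero => exact ⟨zero_mem _, 0, by
        rw [show (⟨0, zero_mem _⟩ : B) = 0 from rfl, map_zero, mul_zero]; exact isIntegral_zero⟩
    | one => exact ⟨one_mem _, 0, by
        rw [show (⟨1, one_mem _⟩ : B) = 1 from rfl, map_one, mul_one, pow_zero]; exact isIntegral_one⟩
    | add x y _ _ hx hy =>
      obtain ⟨hx, e, he⟩ := hx
      obtain ⟨hy, f, hf⟩ := hy
      refine ⟨add_mem hx hy, e + f, ?_⟩
      refine cg (((hNi.pow f).mul he).add ((hNi.pow e).mul hf)) ?_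
      rw [show (⟨x + y, add_mem hx hy⟩ : B) = ⟨x, hx⟩ + ⟨y, hy⟩ from rfl, map_add]; ring
    | neg x _ hx =>
      obtain ⟨hx, e, he⟩ := hx
      refine ⟨neg_mem hx, e, ?_⟩
      refine cg he.neg ?_
      rw [show (⟨-x, neg_mem hx⟩ : B) = -⟨x, hx⟩ from rfl, map_neg]; ring
    | mul x y _ _ hx hy =>
      obtain ⟨hx, e, he⟩ := hx
      obtain ⟨hy, f, hf⟩ := hy
      refine ⟨mul_mem hx hy, e + f, ?_⟩
      refine cg (he.mul hf) ?_
      rw [show (⟨x * y, mul_mem hx hy⟩ : B) = ⟨x, hx⟩ * ⟨y, hy⟩ from rfl, map_mul]; ring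
  refine ⟨N.natAbs, fun p hp hlt hu => ?_⟩
  obtain ⟨a, ha⟩ := hu.exists_right_inv
  obtain ⟨hx, e, he⟩ := h2 a.1 a.2
  have h3 : (p : L) * π ⟨a.1, hx⟩ = 1 := by
    rw [← map_natCast π, ← map_mul, ← map_one π]
    congr 1
    exact Subtype.ext (by simpa using congrArg Subtype.val ha)
  have hp0 : (p : ℚ) ≠ 0 := by exact_mod_cast hp.ne_zero
  have h4 : (N : L) ^ e * π ⟨a.1, hx⟩ = algebraMap ℚ L ((N : ℚ) ^ e / p) := by
    rw [map_div₀, map_pow, map_intCast, map_natCast, eq_div_iff (left_ne_zero_of_mul_eq_one h3),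
      mul_assoc, mul_comm _ (p : L), h3, mul_one]
  rw [h4, isIntegral_algebraMap_iff (algebraMap ℚ L).injective,
    IsIntegrallyClosed.isIntegral_iff] at he
  obtain ⟨y, hy⟩ := he
  have h5 : (p : ℤ) ∣ N ^ e := ⟨y, by
    rw [eq_div_iff hp0] at hy
    have : ((N ^ e : ℤ) : ℚ) = ((p * y : ℤ) : ℚ) := by push_cast; rw [← hy]; simp; ring
    exact_mod_cast this⟩
  have h6 := Int.natAbs_le_of_dvd_ne_zero ((Nat.prime_iff_prime_int.1 hp).dvd_of_dvd_pow h5) hN
  simp at h6
  omega

theorem nonunit {k : Type*} [Field k] [CharZero k] (S : Finset k) :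
    ∃ N : ℕ, ∀ p : ℕ, p.Prime → N < p → ¬ IsUnit (p : Subring.closure (S : Set k)) := by
  let B := Algebra.adjoin ℚ (S : Set k)
  have : Algebra.FiniteType ℚ B := (Subalgebra.fg_iff_finiteType _).1 (Subalgebra.fg_adjoin_finset S)
  obtain ⟨J, hJ⟩ := Ideal.exists_maximal B
  let := Ideal.Quotient.field J
  have := finite_of_finite_type_of_isJacobsonRing ℚ (B ⧸ J)
  exact nonunit' S B.toSubring (fun x hx => Algebra.subset_adjoin hx) (L := B ⧸ J)
    (Ideal.Quotient.mk J)

theorem charp {F : Type*} [Field F] {m s p : ℕ} (hp : p.Prime) [CharP F p] (hm : 1 ≤ m)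
    (hs : p = m * s + 1) (B : MvPolynomial (Fin m) F) (A : Fin m → MvPolynomial (Fin m) F)
    (h : B ^ 2 = (∑ i, X i ^ m) * ∑ i, (B * pderiv i (A i) - A i * pderiv i B)) : B = 0 := by
  classical
  have := Fact.mk hp
  by_contra hB
  obtain ⟨β, hβ⟩ := exists_coeff_ne_zero hB
  set Q : MvPolynomial (Fin m) F := ∑ i, X i ^ m with hQ
  obtain ⟨r, hr⟩ : ∃ r, p = r + 2 := ⟨p - 2, by have := hp.two_le; omega⟩
  have hr0 : ((r + 2 : ℕ) : MvPolynomial (Fin m) F) = 0 := by rw [← hr]; exact CharP.cast_eq_zero _ p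
  push_cast at hr0
  have h1 : Q ^ (r + 1) * B ^ (r + 2) = ∑ i, pderiv i (A i * B ^ (r + 1) * Q ^ (r + 2)) := by
    have : ∀ i, pderiv i (A i * B ^ (r + 1) * Q ^ (r + 2)) =
        Q ^ (r + 2) * B ^ r * (B * pderiv i (A i) - A i * pderiv i B) := fun i => by
      simp only [Derivation.leibniz, Derivation.leibniz_pow, smul_eq_mul, nsmul_eq_mul,
        Nat.add_sub_cancel, show r + 2 - 1 = r + 1 from rfl]
      push_cast
      linear_combination (A i * B ^ (r + 1) * Q ^ (r + 1) * pderiv i Q +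
        Q ^ (r + 2) * A i * B ^ r * pderiv i B) * hr0
    simp only [this, ← Finset.mul_sum]
    linear_combination (Q ^ (r + 1) * B ^ r) * h
  let σ : Fin m →₀ ℕ := Finsupp.equivFunOnFinite.symm fun _ => s
  have hσ : ∀ i, σ i = s := fun i => rfl
  have hQ' : Q ^ (r + 1) = expand m ((∑ i, X i) ^ (m * s)) := by
    rw [map_pow, map_sum]; simp only [expand_X]; rw [show r + 1 = m * s by omega]
  have h2 := congrArg (coeff (m • σ + p • β)) h1
  rw [coeff_sum, Finset.sum_eq_zero fun i _ => by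
    rw [coeff_pderiv]
    have : (((m • σ + p • β) i : ℕ) : F) + 1 = 0 := by
      have e : (m • σ + p • β) i + 1 = p * (β i + 1) := by simp [hσ, mul_add]; omega
      rw [← Nat.cast_succ, Nat.succ_eq_add_one, e, Nat.cast_mul, CharP.cast_eq_zero, zero_mul]
    rw [this, mul_zero]] at h2
  rw [← hr, ← map_frobenius_expand p (f := B), coeff_mul,
    Finset.sum_eq_single (m • σ, p • β) _ (by simp)] at h2
  · rw [hQ', coeff_expand_smul _ (by omega), coeff_map, coeff_expand_smul _ hp.ne_zero,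
      coeff_sum_X_pow_of_fintype, if_pos (by
        rw [Finsupp.sum_fintype _ _ fun _ => rfl]; simp [hσ])] at h2
    rcases mul_eq_zero.1 h2 with h3 | h3
    · rw [CharP.cast_eq_zero_iff F p, Finsupp.multinomial_eq_of_support_subset
        (Finset.subset_univ _)] at h3
      have h4 := Nat.multinomial_spec Finset.univ σ
      have h5 : p ∣ (∑ i, σ i).factorial := h4 ▸ h3.mul_left _
      rw [hp.dvd_factorial] at h5
      simp [hσ] at h5
      omega
    · exact hβ (by simpa using h3)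
  · rintro ⟨u, v⟩ huv hne
    rw [Finset.HasAntidiagonal.mem_antidiagonal] at huv
    by_contra h0
    obtain ⟨h3, h4⟩ := mul_ne_zero_iff.1 h0
    have h5 : ∀ i, p ∣ v i := fun i => by
      by_contra hc
      exact h4 (by rw [coeff_map, coeff_expand_of_not_dvd _ hc, map_zero])
    have h6 : ∀ i, m * s ≤ u i := fun i => by
      have e := congrArg (fun w => w i) huv
      simp only [Finsupp.add_apply, Finsupp.smul_apply, smul_eq_mul, hσ] at e
      obtain ⟨c, hc⟩ := h5 i
      have : p ∣ u i + 1 := (Nat.dvd_add_left (dvd_mul_right p c)).1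
        ⟨β i + 1, by rw [mul_add, ← hc]; omega⟩
      have := Nat.le_of_dvd (by omega) this
      omega
    have h7 : (Q ^ (r + 1)).IsHomogeneous (m * (r + 1)) :=
      (IsHomogeneous.sum _ _ _ fun i _ => isHomogeneous_X_pow i m).pow _
    have h8 : ∑ i, u i = ∑ _i : Fin m, m * s := by
      by_contra hc
      refine h3 (h7.coeff_eq_zero ?_)
      rw [Finsupp.degree_eq_sum]
      simpa [show r + 1 = m * s by omega] using hc
    have h9 : u = m • σ := Finsupp.ext fun i =>
      ((Finset.sum_eq_sum_iff_of_le fun i _ => h6 i).1 h8.symm i (Finset.mem_univ i)).symm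
    subst h9
    exact hne (Prod.ext rfl (add_left_cancel huv))

theorem char0 {k : Type*} [Field k] [CharZero k] {m : ℕ} (hm : 1 ≤ m) (B : MvPolynomial (Fin m) k)
    (A : Fin m → MvPolynomial (Fin m) k)
    (h : B ^ 2 = (∑ i, X i ^ m) * ∑ i, (B * pderiv i (A i) - A i * pderiv i B)) : B = 0 := by
  classical
  by_contra hB
  obtain ⟨β, hβ⟩ := exists_coeff_ne_zero hB
  let S : Finset k := insert (coeff β B)⁻¹ (B.coeffs ∪ Finset.univ.biUnion fun i => (A i).coeffs)
  let R := Subring.closure (S : Set k)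
  have hl : ∀ G : MvPolynomial (Fin m) k, G.coeffs ⊆ S → ∃ G', map R.subtype G' = G := fun G hG =>
    mem_range_map_iff_coeffs_subset.2 fun x hx => ⟨⟨x, Subring.subset_closure (hG hx)⟩, rfl⟩
  obtain ⟨B', hB'⟩ := hl B fun x hx => by simp [S, hx]
  choose A' hA' using fun i => hl (A i) fun x hx => by
    simp only [S, Finset.mem_insert, Finset.mem_union, Finset.mem_biUnion]
    exact Or.inr (Or.inr ⟨i, Finset.mem_univ i, hx⟩)
  have h' : B' ^ 2 = (∑ i, X i ^ m) * ∑ i, (B' * pderiv i (A' i) - A' i * pderiv i B') := by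
    refine map_injective R.subtype R.subtype_injective ?_
    simp only [map_pow, map_mul, map_sum, map_sub, map_X, ← pderiv_map, hA', hB']
    exact h
  obtain ⟨N, hN⟩ := nonunit S
  obtain ⟨p, hp, hNp, hpm⟩ := Nat.exists_prime_gt_modEq_one N (k := m) (by omega)
  obtain ⟨s, hs⟩ := (Nat.modEq_iff_dvd' hp.one_le).1 hpm.symm
  obtain ⟨J, hJ, hpJ⟩ := exists_max_ideal_of_mem_nonunits (mem_nonunits_iff.2 (hN p hp hNp))
  let := Ideal.Quotient.field J
  have : CharP (R ⧸ J) p := (CharP.charP_iff_prime_eq_zero (R := R ⧸ J) (hp := hp)).2 (by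
    rw [← map_natCast (Ideal.Quotient.mk J)]; exact Ideal.Quotient.eq_zero_iff_mem.2 hpJ)
  have h0 := charp (F := R ⧸ J) (s := s) hp hm (by have := hp.one_le; omega)
    (map (Ideal.Quotient.mk J) B') (fun i => map (Ideal.Quotient.mk J) (A' i)) (by
      have := congrArg (map (Ideal.Quotient.mk J)) h'
      simpa only [map_pow, map_mul, map_sum, map_sub, map_X, ← pderiv_map] using this)
  have h1 : coeff β B' * ⟨(coeff β B)⁻¹, Subring.subset_closure (by simp [S])⟩ = 1 :=
    Subtype.ext (by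
      have e := congrArg (coeff β) hB'
      rw [coeff_map, Subring.coe_subtype] at e
      rw [Subring.coe_mul, e]; exact mul_inv_cancel₀ hβ)
  have h2 := congrArg (coeff β) h0
  rw [coeff_map, coeff_zero] at h2
  have h3 := congrArg (Ideal.Quotient.mk J) h1
  rw [map_mul, h2, zero_mul, map_one] at h3
  exact zero_ne_one h3

theorem result (k : Type*) [Field k] [CharZero k] (m : ℕ) (hm : 4 ≤ m) (n : ℕ) :
    Integrable (fermat k m n) ↔ n ≠ m := by
  have inj := IsFractionRing.injective (MvPolynomial (Fin m) k) (RF k m)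
  have hQ : (∑ i, X i ^ n : MvPolynomial (Fin m) k) ≠ 0 := fun h => by
    have := congrArg (eval fun _ => (1 : k)) h
    simp at this
    omega
  set Q : MvPolynomial (Fin m) k := ∑ i, X i ^ n with hQd
  have hQ' := (map_ne_zero_iff _ inj).2 hQ
  constructor
  · rintro ⟨u, hu⟩ rfl
    obtain ⟨b, hb⟩ := IsLocalization.exist_integer_multiples_of_finite
      (nonZeroDivisors (MvPolynomial (Fin n) k)) u
    choose A hA using hb
    have hb0 := nonZeroDivisors.coe_ne_zero b
    have hb' := (map_ne_zero_iff _ inj).2 hb0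
    have hu' : ∀ i, u i = algebraMap _ (RF k n) (A i) / algebraMap _ (RF k n) b.1 := fun i => by
      rw [hA, Algebra.smul_def, mul_div_cancel_left₀ _ hb']
    refine hb0 (char0 (by omega) b.1 A (inj ?_))
    simp only [hu', pd_div _ _ _ hb0, fermat, ← Finset.sum_div, ← map_sum] at hu
    rw [div_eq_div_iff hQ' ((map_ne_zero_iff _ inj).2 (pow_ne_zero 2 hb0)), one_mul] at hu
    rw [hu, map_mul, mul_comm]
  · intro hn
    have hc : ((m : k) - n) ≠ 0 := sub_ne_zero.2 (by exact_mod_cast hn.symm)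
    have hb : C ((m : k) - n) * Q ≠ 0 := mul_ne_zero (by simpa only [Ne, C_eq_zero] using hc) hQ
    refine ⟨fun i => algebraMap (MvPolynomial (Fin m) k) (RF k m) (X i) /
      algebraMap _ (RF k m) (C ((m : k) - n) * Q), ?_⟩
    simp only [pd_div _ _ _ hb, fermat, ← Finset.sum_div, ← map_sum]
    rw [div_eq_div_iff hQ' ((map_ne_zero_iff _ inj).2 (pow_ne_zero 2 hb)), one_mul, ← map_mul]
    congr 1
    have e : ∑ i : Fin m, X i * pderiv i Q = n • Q :=
      IsHomogeneous.sum_X_mul_pderiv (IsHomogeneous.sum _ _ _ fun i _ => isHomogeneous_X_pow i n)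
    simp only [pderiv_X_self, pderiv_C_mul, mul_one, Finset.sum_sub_distrib, Finset.sum_const,
      Finset.card_univ, Fintype.card_fin, mul_left_comm (X _), ← Finset.mul_sum, e]
    simp only [map_sub, map_natCast, nsmul_eq_mul]
    ring

end Pool.Agent.Results.MP_4362c3_ag.Fermat
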